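import Pool.Agent.Helper73.TWR.Tool

/-!
Row BI of the sheet TW: the inequality of Bessel type.
-/

set_option linter.unusedSectionVars false

open MeasureTheory Filter Topology Finset
open scoped ComplexConjugate

namespace Pool.Agent.Helper92.TWR

open Pool.Agent.Helper98.TW Pool.Agent.Helper73.TWR

variable {Ω : Type} [m0 : MeasurableSpace Ω] {μ : Measure Ω} [IsProbabilityMeasure μ]

/-! ### the mean ergodic theorem for bounded real functions -/

theorem erg_sq {R : Ω → Ω} (hR : Ergodic R μ) (u : Ω → ℝ) (hu : Measurable u) (B : ℝ)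
    (hB : ∀ x, |u x| ≤ B) :
    Tendsto (fun N : ℕ => (∫ x, (∑ n ∈ range N, u (R^[n] x)) ^ 2 ∂μ) / (N : ℝ) ^ 2) atTop
      (𝓝 ((∫ x, u x ∂μ) ^ 2)) := by
  have hmp := hR.toMeasurePreserving
  set W : Lp ℝ 2 μ →L[ℝ] Lp ℝ 2 μ :=
    (Lp.compMeasurePreservingₗᵢ ℝ R hmp).toContinuousLinearMap with hW
  have hWn : ‖W‖ ≤ 1 := LinearIsometry.norm_toContinuousLinearMap_le _
  have huL : MemLp u 2 μ := MemLp.of_bound hu.aestronglyMeasurable B
    (Eventually.of_forall hB)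
  set gL : Lp ℝ 2 μ := huL.toLp u with hgL
  have hlim := ContinuousLinearMap.tendsto_birkhoffAverage_orthogonalProjection W hWn gL
  set S := W.eqLocus (1 : Lp ℝ 2 μ →L[ℝ] Lp ℝ 2 μ) with hS
  set h : Lp ℝ 2 μ := ((S.orthogonalProjectionOnto gL : S) : Lp ℝ 2 μ) with hh
  have hmem : h ∈ S := (S.orthogonalProjectionOnto gL).2
  have hWh : W h = h := hmem
  -- iterates
  have hWae : ∀ g : Lp ℝ 2 μ, ∀ᵐ x ∂μ, (W g : Lp ℝ 2 μ) x = g (R x) := fun g =>
    Lp.coeFn_compMeasurePreserving g hmp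
  have hit : ∀ n : ℕ, ∀ᵐ x ∂μ, (W^[n] gL : Lp ℝ 2 μ) x = u (R^[n] x) := by
    intro n
    induction n with
    | zero => exact huL.coeFn_toLp
    | succ n ih =>
      filter_upwards [hWae (W^[n] gL), hmp.quasiMeasurePreserving.ae ih] with x h1 h2
      rw [Function.iterate_succ_apply', h1, h2, Function.iterate_succ_apply]
  -- the limit is constant
  have hinv : (h : Ω → ℝ) ∘ R =ᵐ[μ] h := by
    have h1 := hWae h
    rw [hWh] at h1
    filter_upwards [h1] with x hx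
    exact hx.symm
  obtain ⟨c, hc⟩ := hR.ae_eq_const_of_ae_eq_comp_ae (Lp.aestronglyMeasurable h) hinv
  have hone : MemLp (fun _ : Ω => (1 : ℝ)) 2 μ := memLp_const 1
  set one : Lp ℝ 2 μ := hone.toLp _ with hone'
  have hW1 : W one = one := by
    apply Lp.ext
    filter_upwards [hWae one, hone.coeFn_toLp, hmp.quasiMeasurePreserving.ae hone.coeFn_toLp]
      with x h1 h2 h3
    rw [h1, h3, h2]
  have hin : inner ℝ one (gL - h) = (0 : ℝ) := by
    have h1 := Submodule.sub_starProjection_mem_orthogonal (K := S) gL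
    exact (Submodule.mem_orthogonal _ _).mp h1 one hW1
  have hin1 : inner ℝ one gL = ∫ x, u x ∂μ := by
    rw [L2.inner_def]
    refine integral_congr_ae ?_
    filter_upwards [hone.coeFn_toLp, huL.coeFn_toLp] with x h1 h2
    rw [h1, h2]
    simp
  have hin2 : inner ℝ one h = c := by
    rw [L2.inner_def]
    have : (fun x => inner ℝ ((one : Lp ℝ 2 μ) x) ((h : Lp ℝ 2 μ) x)) =ᵐ[μ] fun _ => c := by
      filter_upwards [hone.coeFn_toLp, hc] with x h1 h2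
      rw [h1, h2]
      simp
    rw [integral_congr_ae this]
    simp
  have hcu : c = ∫ x, u x ∂μ := by
    rw [inner_sub_right, hin1, hin2] at hin
    linarith
  have hnorm : ∀ g : Lp ℝ 2 μ, ‖g‖ ^ 2 = ∫ x, ((g : Lp ℝ 2 μ) x) ^ 2 ∂μ := by
    intro g
    rw [← real_inner_self_eq_norm_sq, L2.inner_def]
    refine integral_congr_ae (Eventually.of_forall fun x => ?_)
    simp [sq]
  have hhn : ‖h‖ ^ 2 = (∫ x, u x ∂μ) ^ 2 := by
    rw [hnorm, ← hcu]
    have : (fun x => ((h : Lp ℝ 2 μ) x) ^ 2) =ᵐ[μ] fun _ => c ^ 2 := by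
      filter_upwards [hc] with x h2
      rw [h2]
      rfl
    rw [integral_congr_ae this]
    simp
  have hlim2 : Tendsto (fun N : ℕ => ‖birkhoffAverage ℝ W _root_.id N gL‖ ^ 2) atTop
      (𝓝 (‖h‖ ^ 2)) := (hlim.norm).pow 2
  rw [hhn] at hlim2
  refine hlim2.congr fun N => ?_
  rw [hnorm]
  have e0 : birkhoffAverage ℝ W _root_.id N gL = ((N : ℝ)⁻¹) • ∑ j ∈ range N, W^[j] gL := by
    simp [birkhoffAverage, birkhoffSum]
  have e2 : ∀ s : Finset ℕ, ∀ᵐ x ∂μ, ((∑ j ∈ s, W^[j] gL : Lp ℝ 2 μ) : Ω → ℝ) x =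
      ∑ j ∈ s, u (R^[j] x) := by
    intro s
    induction s using Finset.induction_on with
    | empty =>
      filter_upwards [Lp.coeFn_zero ℝ 2 μ] with z hz
      rw [Finset.sum_empty, Finset.sum_empty, hz]
      rfl
    | insert a s ha ih =>
      have e5 := Lp.coeFn_add (W^[a] gL) (∑ j ∈ s, W^[j] gL)
      rw [Finset.sum_insert ha]
      filter_upwards [ih, hit a, e5] with z h1 h2 h4
      rw [h4, Pi.add_apply, h1, Finset.sum_insert ha, h2]
  have hae : (fun x => ((birkhoffAverage ℝ W _root_.id N gL : Lp ℝ 2 μ) x) ^ 2) =ᵐ[μ]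
      fun x => (∑ n ∈ range N, u (R^[n] x)) ^ 2 / (N : ℝ) ^ 2 := by
    rw [e0]
    filter_upwards [Lp.coeFn_smul ((N : ℝ)⁻¹) (∑ j ∈ range N, W^[j] gL), e2 (range N)]
      with x h1 h2
    rw [h1, Pi.smul_apply, h2, smul_eq_mul, mul_pow, inv_pow, div_eq_inv_mul]
  rw [integral_congr_ae hae, integral_div]

/-- Cauchy's inequality -/
theorem cs {g h : Ω → ℂ} (hg : MemLp g 2 μ) (hh : MemLp h 2 μ) :
    ‖∫ x, g x * h x ∂μ‖ ≤ √(∫ x, ‖g x‖ ^ 2 ∂μ) * √(∫ x, ‖h x‖ ^ 2 ∂μ) := by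
  have h1 := integral_mul_norm_le_Lp_mul_Lq (μ := μ) (f := g) (g := h)
    (Real.HolderConjugate.two_two) (by simpa using hg) (by simpa using hh)
  have h2 : ‖∫ x, g x * h x ∂μ‖ ≤ ∫ x, ‖g x‖ * ‖h x‖ ∂μ := by
    refine (norm_integral_le_integral_norm _).trans_eq ?_
    refine integral_congr_ae (Eventually.of_forall fun x => ?_)
    exact norm_mul _ _
  refine h2.trans (h1.trans_eq ?_)
  rw [Real.sqrt_eq_rpow, Real.sqrt_eq_rpow]
  simp

/-! ### general tools -/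

theorem Wi_one (R : Ω → Ω) (h : ℕ) (F : Ω → ℂ) (x : Ω) :
    Wi (fun _ => (1 : ℂ →L[ℂ] ℂ)) R h F x = F (R^[h] x) := by
  induction h generalizing F with
  | zero => rfl
  | succ n ih =>
    show Wi (fun _ => (1 : ℂ →L[ℂ] ℂ)) R n (fun x => (1 : ℂ →L[ℂ] ℂ) (F (R x))) x = _
    rw [ih, Function.iterate_succ_apply']
    rfl

theorem int_comp {X : Type} [NormedAddCommGroup X] [NormedSpace ℝ X] {S : Ω → Ω}
    (hS : MeasurePreserving S μ μ) {g : Ω → X}
    (hg : AEStronglyMeasurable g μ) : ∫ x, g (S x) ∂μ = ∫ x, g x ∂μ := by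
  conv_rhs => rw [← hS.map_eq]
  rw [integral_map hS.measurable.aemeasurable (by rw [hS.map_eq]; exact hg)]

theorem bf_comp {F : Ω → ℂ} (hF : BF F) {S : Ω → Ω} (hS : Measurable S) :
    BF (fun x => F (S x)) := by
  obtain ⟨h1, B, hB⟩ := hF
  exact ⟨h1.comp hS, B, fun x => hB _⟩

theorem am_comp {R R' : Ω → Ω} {ℬ : SA Ω} {F : Ω → ℂ} (hI : IA μ ℬ R R') (hF : AM μ ℬ F)
    (n : ℕ) : AM μ ℬ (fun x => F (R^[n] x)) := ((hI.iterate n).2 F hF).1

/-- the correlations of `conj E * F` -/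
noncomputable def Tc (μ : Measure Ω) (R : Ω → Ω) (E F : Ω → ℂ) (n m : ℕ) : ℂ :=
  ∫ x, (conj (E (R^[n] x)) * E (R^[m] x)) * (F (R^[n] x) * conj (F (R^[m] x))) ∂μ

/-- the correlations of `|E|²` -/
noncomputable def xx (μ : Measure Ω) (R : Ω → Ω) (E : Ω → ℂ) (n m : ℕ) : ℝ :=
  ∫ x, ‖E (R^[n] x)‖ ^ 2 * ‖E (R^[m] x)‖ ^ 2 ∂μ

/-- the square norms of the relative correlations -/
noncomputable def be (μ : Measure Ω) (C : SA Ω) (R : Ω → Ω) (F : Ω → ℂ) (h : ℕ) : ℝ :=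
  ∫ x, ‖(μ[fun x => F (R^[h] x) * conj (F x)|C]) x‖ ^ 2 ∂μ

theorem xx_nonneg (R : Ω → Ω) (E : Ω → ℂ) (n m : ℕ) : 0 ≤ xx μ R E n m :=
  integral_nonneg fun x => by positivity

theorem be_nonneg (C : SA Ω) (R : Ω → Ω) (F : Ω → ℂ) (h : ℕ) : 0 ≤ be μ C R F h :=
  integral_nonneg fun x => by positivity

theorem xx_comm (R : Ω → Ω) (E : Ω → ℂ) (n m : ℕ) : xx μ R E n m = xx μ R E m n := by
  unfold xx
  refine integral_congr_ae (Eventually.of_forall fun x => ?_)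
  exact mul_comm _ _

theorem Tc_comm (R : Ω → Ω) (E F : Ω → ℂ) (n m : ℕ) : ‖Tc μ R E F n m‖ = ‖Tc μ R E F m n‖ := by
  have : Tc μ R E F n m = conj (Tc μ R E F m n) := by
    unfold Tc
    rw [← integral_conj]
    refine integral_congr_ae (Eventually.of_forall fun x => ?_)
    simp only [map_mul, Complex.conj_conj]
    ring
  rw [this, RCLike.norm_conj]

theorem xx_sum {R : Ω → Ω} (hR : Measurable R) {E : Ω → ℂ} (hE : BF E) (N : ℕ) :
    ∑ p ∈ range N ×ˢ range N, xx μ R E p.1 p.2 =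
      ∫ x, (∑ n ∈ range N, ‖E (R^[n] x)‖ ^ 2) ^ 2 ∂μ := by
  have hi : ∀ p ∈ range N ×ˢ range N,
      Integrable (fun x => ‖E (R^[p.1] x)‖ ^ 2 * ‖E (R^[p.2] x)‖ ^ 2) μ := by
    intro p _
    obtain ⟨hm, B, hB⟩ := hE
    refine Integrable.of_bound (C := B ^ 2 * B ^ 2) ?_ (Eventually.of_forall fun x => ?_)
    · exact (((hm.comp (hR.iterate _)).norm.pow_const 2).mul
        ((hm.comp (hR.iterate _)).norm.pow_const 2)).aestronglyMeasurable
    · rw [Real.norm_of_nonneg (by positivity)]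
      exact mul_le_mul (pow_le_pow_left₀ (norm_nonneg _) (hB _) 2)
        (pow_le_pow_left₀ (norm_nonneg _) (hB _) 2) (by positivity) (by positivity)
  unfold xx
  rw [← integral_finsetSum _ hi]
  refine integral_congr_ae (Eventually.of_forall fun x => ?_)
  show ∑ p ∈ range N ×ˢ range N, _ = (∑ n ∈ range N, ‖E (R^[n] x)‖ ^ 2) ^ 2
  rw [sq (∑ n ∈ range N, ‖E (R^[n] x)‖ ^ 2), Finset.sum_mul_sum, Finset.sum_product]

section main

variable {R R' : Ω → Ω} {ℬ C 𝒜 : SA Ω} {E F : Ω → ℂ}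

/-- the bound for one correlation -/
theorem Tc_le (hS : Sys μ R R') (hB : IA μ ℬ R R') (hC : IA μ C R R') (hq : LQ μ C 𝒜)
    {δ : ℝ} (hδ : 0 ≤ δ)
    (hV : ∀ G : Ω → ℂ, BF G → AM μ 𝒜 G → μ[G|C] =ᵐ[μ] 0 →
      ∫ x, ‖(μ[G|ℬ]) x‖ ^ 2 ∂μ ≤ δ * ∫ x, ‖G x‖ ^ 2 ∂μ)
    (hF : BF F) (hFA : ∀ m n : ℕ, AM μ 𝒜 (fun x => F (R^[m] x) * conj (F (R^[n] x))))
    (hE : BF E) (hEB : AM μ ℬ E) (h m : ℕ) :
    ‖Tc μ R E F (h + m) m‖ ≤
      √(xx μ R E (h + m) m) * (√(be μ C R F h) + √δ * √(xx μ R F (h + m) m)) := by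
  have hRm : Measurable R := hS.mp.measurable
  have hRn : ∀ n : ℕ, Measurable R^[n] := fun n => hRm.iterate n
  set P : Ω → ℂ := fun x => F (R^[h + m] x) * conj (F (R^[m] x)) with hP
  set u : Ω → ℂ := fun x => conj (E (R^[h + m] x)) * E (R^[m] x) with hu
  have hPb : BF P := bf_mul (bf_comp hF (hRn _)) (bf_conj (bf_comp hF (hRn _)))
  have hub : BF u := bf_mul (bf_conj (bf_comp hE (hRn _))) (bf_comp hE (hRn _))
  have huB : AM μ ℬ u := am_mul (am_conj (am_comp hB hEB _)) (am_comp hB hEB _)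
  obtain ⟨Q, hQb, hQC, hQe⟩ := ce_bf (μ := μ) hC.1 hPb
  set G : Ω → ℂ := fun x => P x - Q x with hG
  have hGb : BF G := bf_sub hPb hQb
  have hGA : AM μ 𝒜 G := am_sub (hFA _ _) (hq _ hQC)
  have hG0 : μ[G|C] =ᵐ[μ] 0 := by
    have h1 := ce_sub (μ := μ) (𝒜 := C) (bf_int (μ := μ) hPb) (bf_int (μ := μ) hQb)
    have h2 := ce_of_am (μ := μ) hC.1 (bf_int hQb) hQC
    filter_upwards [h1, h2, hQe] with x e1 e2 e3
    rw [e1, e2, e3]
    simp
  have hGV := hV G hGb hGA hG0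
  have hGP : ∫ x, ‖G x‖ ^ 2 ∂μ ≤ ∫ x, ‖P x‖ ^ 2 ∂μ := by
    refine le_trans (le_of_eq ?_) (sub_ce_sq (μ := μ) hC.1 (bf_memLp hPb))
    refine integral_congr_ae ?_
    filter_upwards [hQe] with x hx
    rw [hG]
    simp only
    rw [hx]
  -- the square norms
  have hun : ∫ x, ‖u x‖ ^ 2 ∂μ = xx μ R E (h + m) m := by
    refine integral_congr_ae (Eventually.of_forall fun x => ?_)
    simp only [hu, norm_mul, RCLike.norm_conj, mul_pow]
  have hPn : ∫ x, ‖P x‖ ^ 2 ∂μ = xx μ R F (h + m) m := by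
    refine integral_congr_ae (Eventually.of_forall fun x => ?_)
    simp only [hP, norm_mul, RCLike.norm_conj, mul_pow]
  have hQn : ∫ x, ‖Q x‖ ^ 2 ∂μ = be μ C R F h := by
    set P0 : Ω → ℂ := fun x => F (R^[h] x) * conj (F x) with hP0
    have hP0b : BF P0 := bf_mul (bf_comp hF (hRn _)) (bf_conj hF)
    have hPP : P = fun x => P0 (R^[m] x) := by
      funext x
      simp only [hP, hP0, Function.iterate_add_apply]
    have h1 := cec (hS.iterate m) (hC.iterate m) (bf_int (μ := μ) hP0b)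
    have h2 : ∫ x, ‖Q x‖ ^ 2 ∂μ = ∫ x, ‖(μ[P0|C]) (R^[m] x)‖ ^ 2 ∂μ := by
      refine integral_congr_ae ?_
      rw [hPP] at hQe
      filter_upwards [hQe, h1] with x e1 e2
      rw [e1, e2]
    rw [h2]
    exact int_comp (hS.mp.iterate m) (g := fun x => ‖(μ[P0|C]) x‖ ^ 2)
      ((ce_meas hC.1).norm.pow_const 2).aestronglyMeasurable
  -- splitting
  have hsplit : Tc μ R E F (h + m) m = (∫ x, u x * Q x ∂μ) + ∫ x, u x * (μ[G|ℬ]) x ∂μ := by
    rw [int_ce hB.1 huB hub.ab (bf_int hGb), ← integral_add (bf_int (bf_mul hub hQb))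
      (bf_int (bf_mul hub hGb))]
    refine integral_congr_ae (Eventually.of_forall fun x => ?_)
    simp only [hG, hP, hu]
    ring
  rw [hsplit]
  refine (norm_add_le _ _).trans ?_
  rw [mul_add]
  have c1 := cs (μ := μ) (bf_memLp hub) (bf_memLp hQb)
  have c2 := cs (μ := μ) (bf_memLp hub) (ce_memLp (𝒜 := ℬ) (bf_memLp hGb))
  rw [hun, hQn] at c1
  rw [hun] at c2
  refine add_le_add c1 (c2.trans ?_)
  refine mul_le_mul_of_nonneg_left ?_ (Real.sqrt_nonneg _)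
  rw [← Real.sqrt_mul hδ, ← hPn]
  exact Real.sqrt_le_sqrt (hGV.trans (mul_le_mul_of_nonneg_left hGP hδ))

/-- the sum of the relative correlations -/
theorem be_sum (β : ℕ → ℝ) (h0 : ∀ h, 0 ≤ β h) (A K : ℝ)
    (hS : ∀ H : ℕ, ∑ h ∈ range H, β h ≤ A * H + K) (N : ℕ) :
    ∑ p ∈ range N ×ˢ range N, β ((p.1 - p.2) + (p.2 - p.1)) ≤
      A * (N * (N + 1)) + 2 * K * N := by
  rw [Finset.sum_product]
  have h1 : ∀ n ∈ range N, ∑ m ∈ range N, β ((n - m) + (m - n)) ≤ A * (N + 1) + 2 * K := by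
    intro n hn
    have hnN : n < N := Finset.mem_range.1 hn
    have h2 : ∑ m ∈ range N, β ((n - m) + (m - n)) =
        ∑ m ∈ range (n + 1), β ((n - m) + (m - n)) +
          ∑ m ∈ Ico (n + 1) N, β ((n - m) + (m - n)) :=
      (Finset.sum_range_add_sum_Ico _ (by omega)).symm
    have h3 : ∑ m ∈ range (n + 1), β ((n - m) + (m - n)) = ∑ h ∈ range (n + 1), β h := by
      rw [← Finset.sum_range_reflect]
      refine Finset.sum_congr rfl fun m hm => ?_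
      have := Finset.mem_range.1 hm
      congr 1
      omega
    have h4 : ∑ m ∈ Ico (n + 1) N, β ((n - m) + (m - n)) ≤ ∑ h ∈ range (N - n), β h := by
      rw [Finset.sum_Ico_eq_sum_range]
      have e : N - n = (N - (n + 1)) + 1 := by omega
      rw [e, Finset.sum_range_succ']
      have e2 : ∑ k ∈ range (N - (n + 1)), β ((n - (n + 1 + k)) + ((n + 1 + k) - n)) =
          ∑ k ∈ range (N - (n + 1)), β (k + 1) := by
        refine Finset.sum_congr rfl fun k _ => ?_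
        congr 1
        omega
      rw [e2]
      linarith [h0 0]
    have h5 := hS (n + 1)
    have h6 := hS (N - n)
    have h7 : ((N - n : ℕ) : ℝ) = (N : ℝ) - n := Nat.cast_sub hnN.le
    rw [h7] at h6
    push_cast at h5
    rw [h2, h3]
    nlinarith
  refine (Finset.sum_le_sum h1).trans_eq ?_
  rw [Finset.sum_const, Finset.card_range, nsmul_eq_mul]
  ring

/-- the sum of all correlations -/
theorem Tc_sum (hS : Sys μ R R') (hB : IA μ ℬ R R') (hC : IA μ C R R') (hq : LQ μ C 𝒜)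
    {δ : ℝ} (hδ : 0 ≤ δ)
    (hV : ∀ G : Ω → ℂ, BF G → AM μ 𝒜 G → μ[G|C] =ᵐ[μ] 0 →
      ∫ x, ‖(μ[G|ℬ]) x‖ ^ 2 ∂μ ≤ δ * ∫ x, ‖G x‖ ^ 2 ∂μ)
    (hF : BF F) (hFA : ∀ m n : ℕ, AM μ 𝒜 (fun x => F (R^[m] x) * conj (F (R^[n] x))))
    (hE : BF E) (hEB : AM μ ℬ E) (A K : ℝ)
    (hA : ∀ H : ℕ, ∑ h ∈ range H, be μ C R F h ≤ A * H + K) (N : ℕ) :
    ∑ p ∈ range N ×ˢ range N, ‖Tc μ R E F p.1 p.2‖ ≤
      √(∫ x, (∑ n ∈ range N, ‖E (R^[n] x)‖ ^ 2) ^ 2 ∂μ) *
        (√(A * (N * (N + 1)) + 2 * K * N) +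
          √δ * √(∫ x, (∑ n ∈ range N, ‖F (R^[n] x)‖ ^ 2) ^ 2 ∂μ)) := by
  have h1 : ∀ p : ℕ × ℕ, ‖Tc μ R E F p.1 p.2‖ ≤ √(xx μ R E p.1 p.2) *
      (√(be μ C R F ((p.1 - p.2) + (p.2 - p.1))) + √δ * √(xx μ R F p.1 p.2)) := by
    rintro ⟨n, m⟩
    show ‖Tc μ R E F n m‖ ≤ √(xx μ R E n m) *
      (√(be μ C R F ((n - m) + (m - n))) + √δ * √(xx μ R F n m))
    rcases le_total m n with hmn | hmn
    · have := Tc_le hS hB hC hq hδ hV hF hFA hE hEB (n - m) m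
      rw [Nat.sub_add_cancel hmn] at this
      rw [Nat.sub_eq_zero_of_le hmn, add_zero]
      exact this
    · have := Tc_le hS hB hC hq hδ hV hF hFA hE hEB (m - n) n
      rw [Nat.sub_add_cancel hmn] at this
      rw [Nat.sub_eq_zero_of_le hmn, zero_add, Tc_comm, xx_comm R E n m, xx_comm R F n m]
      exact this
  have hRm : Measurable R := hS.mp.measurable
  set s := range N ×ˢ range N with hs
  have e1 : ∀ p : ℕ × ℕ, √(xx μ R E p.1 p.2) *
      (√(be μ C R F ((p.1 - p.2) + (p.2 - p.1))) + √δ * √(xx μ R F p.1 p.2)) =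
      √(xx μ R E p.1 p.2) * √(be μ C R F ((p.1 - p.2) + (p.2 - p.1))) +
        √δ * (√(xx μ R E p.1 p.2) * √(xx μ R F p.1 p.2)) := fun p => by ring
  refine (Finset.sum_le_sum fun p _ => h1 p).trans ?_
  rw [Finset.sum_congr rfl fun p _ => e1 p, Finset.sum_add_distrib, ← Finset.mul_sum, mul_add]
  have s1 := Real.sum_sqrt_mul_sqrt_le s (f := fun p : ℕ × ℕ => xx μ R E p.1 p.2)
    (g := fun p : ℕ × ℕ => be μ C R F ((p.1 - p.2) + (p.2 - p.1)))
    (fun p => xx_nonneg _ _ _ _) (fun p => be_nonneg _ _ _ _)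
  have s2 := Real.sum_sqrt_mul_sqrt_le s (f := fun p : ℕ × ℕ => xx μ R E p.1 p.2)
    (g := fun p : ℕ × ℕ => xx μ R F p.1 p.2)
    (fun p => xx_nonneg _ _ _ _) (fun p => xx_nonneg _ _ _ _)
  rw [xx_sum hRm hE] at s1 s2
  rw [xx_sum hRm hF] at s2
  have s3 := be_sum (be μ C R F) (be_nonneg C R F) A K hA N
  refine add_le_add (s1.trans ?_) ?_
  · exact mul_le_mul_of_nonneg_left (Real.sqrt_le_sqrt s3) (Real.sqrt_nonneg _)
  · calc √δ * ∑ p ∈ s, √(xx μ R E p.1 p.2) * √(xx μ R F p.1 p.2) ≤ √δ * _ :=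
        mul_le_mul_of_nonneg_left s2 (Real.sqrt_nonneg _)
      _ = _ := by ring

/-- the left side -/
theorem left_le (hS : Sys μ R R') (hB : IA μ ℬ R R') (hF : BF F) (hE : BF E)
    (hEB : AM μ ℬ E) (hEF : E =ᵐ[μ] μ[F|ℬ]) (N : ℕ) :
    ((N : ℝ) * ∫ x, ‖E x‖ ^ 2 ∂μ) ^ 2 ≤
      ∑ p ∈ range N ×ˢ range N, ‖Tc μ R E F p.1 p.2‖ := by
  have hRm : Measurable R := hS.mp.measurable
  have hRn : ∀ n : ℕ, Measurable R^[n] := fun n => hRm.iterate n
  set s : Ω → ℂ := fun x => ∑ n ∈ range N, conj (E (R^[n] x)) * F (R^[n] x) with hs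
  have hb : ∀ n : ℕ, BF (fun x => conj (E (R^[n] x)) * F (R^[n] x)) := fun n =>
    bf_mul (bf_conj (bf_comp hE (hRn _))) (bf_comp hF (hRn _))
  have hsm : MemLp s 2 μ := memLp_finsetSum _ fun n _ => bf_memLp (hb n)
  have h0 : ∫ x, conj (E x) * F x ∂μ = ((∫ x, ‖E x‖ ^ 2 ∂μ : ℝ) : ℂ) := by
    rw [← int_ce hB.1 (am_conj hEB) (bf_conj hE).ab (bf_int hF), ← integral_complex_ofReal]
    refine integral_congr_ae ?_
    filter_upwards [hEF] with x hx
    rw [← hx, mul_comm, Complex.mul_conj, Complex.normSq_eq_norm_sq]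
  have h1 : ∫ x, s x ∂μ = (N : ℂ) * ((∫ x, ‖E x‖ ^ 2 ∂μ : ℝ) : ℂ) := by
    rw [hs, integral_finsetSum _ fun n _ => bf_int (hb n)]
    have : ∀ n ∈ range N, ∫ x, conj (E (R^[n] x)) * F (R^[n] x) ∂μ =
        ((∫ x, ‖E x‖ ^ 2 ∂μ : ℝ) : ℂ) := by
      intro n _
      rw [← h0]
      exact int_comp (hS.mp.iterate n) (g := fun x => conj (E x) * F x)
        (bf_mul (bf_conj hE) hF).1.aestronglyMeasurable
    rw [Finset.sum_congr rfl this, Finset.sum_const, Finset.card_range, nsmul_eq_mul]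
  have h2 := cs (μ := μ) hsm (memLp_const (μ := μ) (p := 2) (1 : ℂ))
  have h3 : (N : ℝ) * ∫ x, ‖E x‖ ^ 2 ∂μ ≤ √(∫ x, ‖s x‖ ^ 2 ∂μ) := by
    have e1 : ∫ x, s x * 1 ∂μ = ∫ x, s x ∂μ := by simp
    rw [e1, h1, norm_mul, Complex.norm_natCast, Complex.norm_real,
      Real.norm_of_nonneg (integral_nonneg fun x => by positivity)] at h2
    simpa using h2
  have hE0 : 0 ≤ ∫ x, ‖E x‖ ^ 2 ∂μ := integral_nonneg fun x => by positivity
  have h4 : ((N : ℝ) * ∫ x, ‖E x‖ ^ 2 ∂μ) ^ 2 ≤ ∫ x, ‖s x‖ ^ 2 ∂μ := by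
    have := pow_le_pow_left₀ (by positivity) h3 2
    rwa [Real.sq_sqrt (integral_nonneg fun x => by positivity)] at this
  refine h4.trans ?_
  have h5 : ((∫ x, ‖s x‖ ^ 2 ∂μ : ℝ) : ℂ) = ∑ p ∈ range N ×ˢ range N, Tc μ R E F p.1 p.2 := by
    unfold Tc
    rw [← integral_complex_ofReal, ← integral_finsetSum]
    · refine integral_congr_ae (Eventually.of_forall fun x => ?_)
      show ((‖s x‖ ^ 2 : ℝ) : ℂ) = ∑ p ∈ range N ×ˢ range N, _
      have e1 : ((‖s x‖ ^ 2 : ℝ) : ℂ) = s x * conj (s x) := by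
        rw [Complex.mul_conj, Complex.normSq_eq_norm_sq]
      rw [e1]
      simp only [hs]
      rw [map_sum, Finset.sum_mul_sum, Finset.sum_product]
      refine Finset.sum_congr rfl fun n _ => Finset.sum_congr rfl fun m _ => ?_
      simp only [map_mul, Complex.conj_conj]
      ring
    · intro p _
      exact bf_int (bf_mul (bf_mul (bf_conj (bf_comp hE (hRn _))) (bf_comp hE (hRn _)))
        (bf_mul (bf_comp hF (hRn _)) (bf_conj (bf_comp hF (hRn _)))))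
  have h6 : ∫ x, ‖s x‖ ^ 2 ∂μ = ‖((∫ x, ‖s x‖ ^ 2 ∂μ : ℝ) : ℂ)‖ := by
    rw [Complex.norm_real, Real.norm_of_nonneg (integral_nonneg fun x => by positivity)]
  rw [h6, h5]
  exact norm_sum_le _ _

/-- the limit -/
theorem key (hS : Sys μ R R') (hR : Ergodic R μ) (hB : IA μ ℬ R R') (hC : IA μ C R R')
    (hq : LQ μ C 𝒜) {δ : ℝ} (hδ : 0 ≤ δ)
    (hV : ∀ G : Ω → ℂ, BF G → AM μ 𝒜 G → μ[G|C] =ᵐ[μ] 0 →
      ∫ x, ‖(μ[G|ℬ]) x‖ ^ 2 ∂μ ≤ δ * ∫ x, ‖G x‖ ^ 2 ∂μ)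
    (hF : BF F) (hFA : ∀ m n : ℕ, AM μ 𝒜 (fun x => F (R^[m] x) * conj (F (R^[n] x))))
    (hE : BF E) (hEB : AM μ ℬ E) (hEF : E =ᵐ[μ] μ[F|ℬ]) (A K : ℝ)
    (hA : ∀ H : ℕ, ∑ h ∈ range H, be μ C R F h ≤ A * H + K) :
    (∫ x, ‖E x‖ ^ 2 ∂μ) ^ 2 ≤
      (∫ x, ‖E x‖ ^ 2 ∂μ) * (√A + √δ * ∫ x, ‖F x‖ ^ 2 ∂μ) := by
  have hE0 : 0 ≤ ∫ x, ‖E x‖ ^ 2 ∂μ := integral_nonneg fun x => by positivity
  have hF0 : 0 ≤ ∫ x, ‖F x‖ ^ 2 ∂μ := integral_nonneg fun x => by positivity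
  have lim : ∀ G : Ω → ℂ, BF G → Tendsto (fun N : ℕ =>
      √(∫ x, (∑ n ∈ range N, ‖G (R^[n] x)‖ ^ 2) ^ 2 ∂μ) / N) atTop
        (𝓝 (∫ x, ‖G x‖ ^ 2 ∂μ)) := by
    intro G hG
    obtain ⟨hm, B, hBd⟩ := hG
    have h1 := erg_sq (μ := μ) hR (fun x => ‖G x‖ ^ 2) (hm.norm.pow_const 2) (B ^ 2)
      (fun x => by
        rw [abs_of_nonneg (by positivity)]
        exact pow_le_pow_left₀ (norm_nonneg _) (hBd x) 2)
    have h2 := (Real.continuous_sqrt.tendsto _).comp h1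
    rw [Real.sqrt_sq (integral_nonneg fun x => by positivity)] at h2
    refine h2.congr fun N => ?_
    show √(_ / (N : ℝ) ^ 2) = _
    rw [Real.sqrt_div' _ (by positivity), Real.sqrt_sq (by positivity)]
  have limZ : Tendsto (fun N : ℕ => √(A * (N * (N + 1)) + 2 * K * N) / N) atTop (𝓝 √A) := by
    have h1 : Tendsto (fun N : ℕ => A * (1 + 1 / (N : ℝ)) + 2 * K / N) atTop
        (𝓝 (A * (1 + 0) + 0)) :=
      ((tendsto_const_nhds.add (tendsto_const_div_atTop_nhds_zero_nat 1)).const_mul A).add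
        (tendsto_const_div_atTop_nhds_zero_nat (2 * K))
    have h2 := (Real.continuous_sqrt.tendsto _).comp h1
    rw [add_zero, add_zero, mul_one] at h2
    refine h2.congr' ?_
    filter_upwards [eventually_ge_atTop 1] with N hN
    have hN0 : (0 : ℝ) < N := by exact_mod_cast hN
    show √(A * (1 + 1 / (N : ℝ)) + 2 * K / N) = _
    have e : A * (1 + 1 / (N : ℝ)) + 2 * K / N = (A * (N * (N + 1)) + 2 * K * N) / N ^ 2 := by
      field_simp
    rw [e, Real.sqrt_div' _ (by positivity), Real.sqrt_sq hN0.le]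
  have limR := (lim E hE).mul (limZ.add ((lim F hF).const_mul √δ))
  refine ge_of_tendsto limR ?_
  filter_upwards [eventually_ge_atTop 1] with N hN
  have hN0 : (0 : ℝ) < N := by exact_mod_cast hN
  have h1 := (left_le hS hB hF hE hEB hEF N).trans
    (Tc_sum hS hB hC hq hδ hV hF hFA hE hEB A K hA N)
  have h2 : (∫ x, ‖E x‖ ^ 2 ∂μ) ^ 2 = ((N : ℝ) * ∫ x, ‖E x‖ ^ 2 ∂μ) ^ 2 / N ^ 2 := by
    field_simp
  rw [h2, div_le_iff₀ (by positivity)]
  refine h1.trans_eq ?_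
  field_simp

end main

theorem st_BI : ST_BI := by
  intro Ω m0 μ _ R R' ℬ C 𝒜 F δ α hS hR hB hC hA hq hδ hα hV hF hFA hlim
  obtain ⟨E, hE, hEB, hEF⟩ := ce_bf (μ := μ) hB.1 hF
  have hRm : Measurable R := hS.mp.measurable
  have ha : ∫ x, ‖(μ[F|ℬ]) x‖ ^ 2 ∂μ = ∫ x, ‖E x‖ ^ 2 ∂μ := by
    refine integral_congr_ae ?_
    filter_upwards [hEF] with x hx
    rw [hx]
  rw [ha]
  have hE0 : 0 ≤ ∫ x, ‖E x‖ ^ 2 ∂μ := integral_nonneg fun x => by positivity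
  have hF0 : 0 ≤ ∫ x, ‖F x‖ ^ 2 ∂μ := integral_nonneg fun x => by positivity
  rcases hE0.eq_or_lt with h0 | h0
  · rw [← h0]
    positivity
  -- the averages
  have hal : ∀ H : ℕ, al μ C R (fun _ => (1 : ℂ →L[ℂ] ℂ)) F H =
      (∑ h ∈ range H, be μ C R F h) / H := by
    intro H
    unfold al be
    congr 1
    refine Finset.sum_congr rfl fun h _ => ?_
    have e : (fun x => (inner ℂ (F x) (Wi (fun _ => (1 : ℂ →L[ℂ] ℂ)) R h F x) : ℂ)) =
        fun x => F (R^[h] x) * conj (F x) := by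
      funext x
      rw [Wi_one, RCLike.inner_apply]
    rw [e]
  obtain ⟨hFm, B, hFB⟩ := id hF
  have hbe : ∀ h : ℕ, be μ C R F h ≤ (B * B) ^ 2 := by
    intro h
    have hb : BF (fun x => F (R^[h] x) * conj (F x)) :=
      bf_mul (bf_comp hF (hRm.iterate h)) (bf_conj hF)
    refine (ce_sq_le (μ := μ) (𝒜 := C) (bf_memLp hb)).trans ?_
    have h1 : ∫ x, ‖F (R^[h] x) * conj (F x)‖ ^ 2 ∂μ ≤ ∫ _x, (B * B) ^ 2 ∂μ := by
      refine integral_mono_of_nonneg (Eventually.of_forall fun x => by positivity)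
        (integrable_const _) (Eventually.of_forall fun x => ?_)
      refine pow_le_pow_left₀ (norm_nonneg _) ?_ 2
      rw [norm_mul, RCLike.norm_conj]
      exact mul_le_mul (hFB _) (hFB _) (norm_nonneg _) ((norm_nonneg _).trans (hFB x))
    simpa using h1
  have hbd : IsBoundedUnder (· ≤ ·) atTop
      (fun H : ℕ => al μ C R (fun _ => (1 : ℂ →L[ℂ] ℂ)) F H) := by
    refine isBoundedUnder_of ⟨(B * B) ^ 2, fun H => ?_⟩
    rw [hal]
    rcases Nat.eq_zero_or_pos H with rfl | hH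
    · simp
      positivity
    · have hH0 : (0 : ℝ) < H := by exact_mod_cast hH
      rw [div_le_iff₀ hH0]
      refine (Finset.sum_le_sum fun h _ => hbe h).trans_eq ?_
      rw [Finset.sum_const, Finset.card_range, nsmul_eq_mul, mul_comm]
  refine le_of_forall_pos_le_add fun η hη => ?_
  have hlt : limsup (fun H => al μ C R (fun _ => (1 : ℂ →L[ℂ] ℂ)) F H) atTop < α + η ^ 2 :=
    hlim.trans_lt (by linarith [pow_pos hη 2])
  have hev := eventually_lt_of_limsup_lt hlt hbd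
  obtain ⟨H0, hH0⟩ := eventually_atTop.1 hev
  have hA' : ∀ H : ℕ, ∑ h ∈ range H, be μ C R F h ≤
      (α + η ^ 2) * H + ∑ h ∈ range H0, be μ C R F h := by
    intro H
    have hK : 0 ≤ ∑ h ∈ range H0, be μ C R F h := Finset.sum_nonneg fun h _ => be_nonneg _ _ _ _
    rcases le_total H0 H with hH | hH
    · rcases Nat.eq_zero_or_pos H with rfl | hHp
      · simpa using hK
      · have h1 := hH0 H hH
        rw [hal, div_lt_iff₀ (by exact_mod_cast hHp)] at h1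
        linarith
    · have h1 : ∑ h ∈ range H, be μ C R F h ≤ ∑ h ∈ range H0, be μ C R F h :=
        Finset.sum_le_sum_of_subset_of_nonneg (Finset.range_mono hH)
          fun h _ _ => be_nonneg _ _ _ _
      have : 0 ≤ (α + η ^ 2) * H := by positivity
      linarith
  have hk := key hS hR hB hC hq hδ hV hF hFA hE hEB hEF _ _ hA'
  rw [sq] at hk
  have h2 := le_of_mul_le_mul_left hk h0
  have h3 : √(α + η ^ 2) ≤ √α + η := by
    rw [Real.sqrt_le_left (by positivity)]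
    nlinarith [Real.sq_sqrt hα, Real.sqrt_nonneg α]
  linarith

end Pool.Agent.Helper92.TWR
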